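import Pool.Agent.W254.LF.Stm4
import Pool.Agent.W230.LF.Const

/-!
# LF4: FRR, FRS, FRK
-/

set_option autoImplicit false

namespace Pool.Agent.W932.LF

open Polynomial Filter Topology Pool.Agent.W289.SL Pool.Agent.W254.LF Pool.Agent.W230.LF

/-! ### iterates of Frobenius in rings where `p = 0` -/

theorem iter {S : Type} [Monoid S] {p n : ℕ} {x : S} (h : x ^ (p ^ n) = x) (k : ℕ) :
    x ^ (p ^ (n * k)) = x := by
  rw [pow_mul]
  induction k with
  | zero => simp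
  | succ k ih => rw [pow_succ (p ^ n) k, pow_mul, ih, h]

theorem sub_fix {S : Type} [CommRing S] {p : ℕ} (hp : p.Prime) (h0 : (p : S) = 0) {N : ℕ}
    {x y : S} (hx : x ^ (p ^ N) = x) (hy : y ^ (p ^ N) = y) : (x - y) ^ (p ^ N) = x - y := by
  obtain ⟨r, hr⟩ := exists_add_pow_prime_pow_eq hp (x - y) y N
  rw [sub_add_cancel, h0, hx, hy] at hr
  linear_combination -hr

section

variable (p : ℕ) [hp : Fact p.Prime]

theorem norm_p_lt : ‖(p : ℂ_[p])‖ < 1 := by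
  have hp1 : ‖(p : ℂ_[p])‖ = (p : ℝ)⁻¹ := norm_p
  have hpR : (1 : ℝ) < p := by exact_mod_cast hp.out.one_lt
  rw [hp1]; exact inv_lt_one_of_one_lt₀ hpR

theorem norm_p_pos : 0 < ‖(p : ℂ_[p])‖ := by
  have hp1 : ‖(p : ℂ_[p])‖ = (p : ℝ)⁻¹ := norm_p
  have hpR : (1 : ℝ) < p := by exact_mod_cast hp.out.one_lt
  rw [hp1]; positivity

/-- the unit ball modulo `p` -/
abbrev QQ : Type := OO p ⧸ Ideal.span {(p : OO p)}

theorem p_zero : ((p : ℕ) : QQ p) = 0 := by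
  have : ((p : ℕ) : QQ p) = Ideal.Quotient.mk (Ideal.span {(p : OO p)}) (p : OO p) := by
    rw [map_natCast]
  rw [this, Ideal.Quotient.eq_zero_iff_mem]
  exact Ideal.mem_span_singleton_self _

theorem dvd_iff (x : OO p) : (p : OO p) ∣ x ↔ ‖(x : ℂ_[p])‖ ≤ ‖(p : ℂ_[p])‖ := by
  constructor
  · rintro ⟨c, rfl⟩
    have hc : ‖(c : ℂ_[p])‖ ≤ 1 := c.2
    push_cast
    rw [norm_mul]
    calc ‖(p : ℂ_[p])‖ * ‖(c : ℂ_[p])‖ ≤ ‖(p : ℂ_[p])‖ * 1 := by gcongr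
      _ = _ := mul_one _
  · intro h
    have h0 := norm_p_pos p
    have hc : ‖(x : ℂ_[p]) / (p : ℂ_[p])‖ ≤ 1 := by
      rw [norm_div]
      exact div_le_one_of_le₀ h h0.le
    refine ⟨⟨(x : ℂ_[p]) / (p : ℂ_[p]), hc⟩, ?_⟩
    apply Subtype.ext
    push_cast
    rw [mul_div_cancel₀]
    exact norm_pos_iff.1 h0

theorem mk_eq_iff (x y : OO p) :
    Ideal.Quotient.mk (Ideal.span {(p : OO p)}) x = Ideal.Quotient.mk (Ideal.span {(p : OO p)}) y ↔
      ‖(x : ℂ_[p]) - y‖ ≤ ‖(p : ℂ_[p])‖ := by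
  rw [Ideal.Quotient.eq, Ideal.mem_span_singleton, dvd_iff]
  simp

theorem fr_iff (x : OO p) : Fr p (x : ℂ_[p]) ↔ ∃ n : ℕ, 1 ≤ n ∧
    (Ideal.Quotient.mk (Ideal.span {(p : OO p)}) x) ^ (p ^ n) =
      Ideal.Quotient.mk (Ideal.span {(p : OO p)}) x := by
  constructor
  · rintro ⟨-, n, hn, h⟩
    refine ⟨n, hn, ?_⟩
    rw [← map_pow, mk_eq_iff]
    simpa using h
  · rintro ⟨n, hn, h⟩
    refine ⟨x.2, n, hn, ?_⟩
    rw [← map_pow, mk_eq_iff] at h
    simpa using h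

theorem common {x y : OO p} (hx : Fr p (x : ℂ_[p])) (hy : Fr p (y : ℂ_[p])) :
    ∃ N : ℕ, 1 ≤ N ∧ (Ideal.Quotient.mk (Ideal.span {(p : OO p)}) x) ^ (p ^ N) =
      Ideal.Quotient.mk (Ideal.span {(p : OO p)}) x ∧
      (Ideal.Quotient.mk (Ideal.span {(p : OO p)}) y) ^ (p ^ N) =
      Ideal.Quotient.mk (Ideal.span {(p : OO p)}) y := by
  obtain ⟨n, hn, h1⟩ := (fr_iff p x).1 hx
  obtain ⟨m, hm, h2⟩ := (fr_iff p y).1 hy
  refine ⟨n * m, Nat.mul_pos hn hm, iter h1 m, ?_⟩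
  rw [mul_comm]; exact iter h2 n

theorem fr_sub {x y : ℂ_[p]} (hx : Fr p x) (hy : Fr p y) : Fr p (x - y) := by
  obtain ⟨N, hN, h1, h2⟩ := common p (x := ⟨x, hx.1⟩) (y := ⟨y, hy.1⟩) hx hy
  have h3 := sub_fix hp.out (p_zero p) h1 h2
  have := (fr_iff p (⟨x, hx.1⟩ - ⟨y, hy.1⟩)).2 ⟨N, hN, by rw [map_sub]; exact h3⟩
  simpa using this

theorem fr_mul {x y : ℂ_[p]} (hx : Fr p x) (hy : Fr p y) : Fr p (x * y) := by
  obtain ⟨N, hN, h1, h2⟩ := common p (x := ⟨x, hx.1⟩) (y := ⟨y, hy.1⟩) hx hy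
  have := (fr_iff p (⟨x, hx.1⟩ * ⟨y, hy.1⟩)).2 ⟨N, hN, by rw [map_mul, mul_pow, h1, h2]⟩
  simpa using this

theorem fr_int (n : ℤ) : Fr p (n : ℂ_[p]) := by
  refine ⟨norm_intCast_le n, 1, le_rfl, ?_⟩
  have h1 : (((n ^ (p ^ 1) - n : ℤ)) : ZMod p) = 0 := by
    push_cast
    rw [ZMod.pow_card_pow, sub_self]
  have := norm_int_le_of_zmod p _ h1
  push_cast at this
  exact this

theorem fr_small {x : ℂ_[p]} (hx : Fr p x) (h1 : ‖x‖ < 1) : ‖x‖ ≤ ‖(p : ℂ_[p])‖ := by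
  obtain ⟨-, n, hn, h⟩ := hx
  have hq : 1 < p ^ n := Nat.one_lt_pow (by omega) hp.out.one_lt
  obtain ⟨m, hm⟩ : ∃ m, p ^ n = m + 2 := ⟨p ^ n - 2, by omega⟩
  rw [hm] at h
  have e : x ^ (m + 2) - x = x * (x ^ (m + 1) + (-1)) := by ring
  rw [e, norm_mul] at h
  have h2 : ‖x ^ (m + 1) + (-1)‖ = 1 := by
    have h3 : ‖x ^ (m + 1)‖ < 1 := by
      rw [norm_pow]; exact pow_lt_one₀ (norm_nonneg _) h1 (by omega)
    rw [IsUltrametricDist.norm_add_eq_max_of_norm_ne_norm]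
    · rw [norm_neg, norm_one]; exact max_eq_right h3.le
    · rw [norm_neg, norm_one]; exact h3.ne
  rwa [h2, mul_one] at h

theorem fr_log (L : ℂ_[p] → ℂ_[p]) (hL : IsIwasawaLog p L) {x : ℂ_[p]} (hx : Fr p x)
    (h1 : ‖x‖ = 1) : ‖L x‖ ≤ ‖(p : ℂ_[p])‖ := by
  obtain ⟨-, n, hn, h⟩ := hx
  have hq0 : 0 < p ^ n := pow_pos hp.out.pos n
  have hx0 : x ≠ 0 := by
    rw [← norm_pos_iff, h1]; exact one_pos
  have hz : ‖x ^ (p ^ n - 1) - 1‖ ≤ ‖(p : ℂ_[p])‖ := by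
    have h2 : x ^ (p ^ n) - x = x * (x ^ (p ^ n - 1) - 1) := by
      obtain ⟨m, hm⟩ : ∃ m, p ^ n = m + 1 := ⟨p ^ n - 1, by omega⟩
      rw [hm, Nat.add_sub_cancel, pow_succ]
      ring
    rw [h2, norm_mul, h1, one_mul] at h
    exact h
  have h3 := log_small p L hL _ hz
  rw [add_sub_cancel, hL.pow hx0, norm_mul] at h3
  have h4 : ‖((p ^ n - 1 : ℕ) : ℂ_[p])‖ = 1 := by
    have h5 : ((p ^ n - 1 : ℕ) : ℂ_[p]) = ((p ^ n : ℕ) : ℂ_[p]) + (-1) := by
      rw [Nat.cast_sub (by omega)]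
      push_cast; ring
    have h6 : ‖((p ^ n : ℕ) : ℂ_[p])‖ < 1 := by
      push_cast
      rw [norm_pow]
      exact pow_lt_one₀ (norm_nonneg _) (norm_p_lt p) (by omega)
    rw [h5, IsUltrametricDist.norm_add_eq_max_of_norm_ne_norm]
    · rw [norm_neg, norm_one]
      exact max_eq_right h6.le
    · rw [norm_neg, norm_one]
      exact h6.ne
  rwa [h4, one_mul] at h3

theorem fr_inv {x : ℂ_[p]} (hx : Fr p x) (h1 : ‖x‖ = 1) : Fr p x⁻¹ := by
  obtain ⟨-, n, hn, h⟩ := hx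
  have hx0 : x ≠ 0 := by
    rw [← norm_pos_iff, h1]; exact one_pos
  refine ⟨by rw [norm_inv, h1, inv_one], n, hn, ?_⟩
  have e : x⁻¹ ^ (p ^ n) - x⁻¹ = -((x ^ (p ^ n) - x) / (x ^ (p ^ n) * x)) := by
    rw [inv_pow]
    have hxq : x ^ (p ^ n) ≠ 0 := pow_ne_zero _ hx0
    generalize x ^ (p ^ n) = w at hxq
    field_simp
    ring
  rw [e, norm_neg, norm_div, norm_mul, norm_pow, h1, one_pow, one_mul, div_one]
  exact h

end

theorem t_FRR : S_FRR := by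
  intro p hp
  exact ⟨fun x y hx hy => fr_sub p hx hy, fun x y hx hy => fr_mul p hx hy, fr_int p,
    fun x hx h1 => fr_small p hx h1, fun _ L hL x hx h1 => fr_log p L hL hx h1⟩

theorem norm_root_le' (p : ℕ) [hp : Fact p.Prime] (f : ℤ[X]) (hf : f.Monic) (x : ℂ_[p])
    (hx : aeval x f = 0) : ‖x‖ ≤ 1 := by
  by_contra hcon
  rw [not_le] at hcon
  have hn : f.natDegree ≠ 0 := by
    intro h0
    rw [hf.natDegree_eq_zero] at h0
    rw [h0] at hx
    simp at hx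
  obtain ⟨m, hm⟩ := Nat.exists_eq_succ_of_ne_zero hn
  rw [Polynomial.aeval_eq_sum_range, Finset.sum_range_succ, hf.coeff_natDegree, one_smul] at hx
  have h1 : x ^ f.natDegree = -∑ i ∈ Finset.range f.natDegree, f.coeff i • x ^ i := by
    linear_combination hx
  have h2 : ‖x ^ f.natDegree‖ ≤ ‖x‖ ^ m := by
    rw [h1, norm_neg]
    refine IsUltrametricDist.norm_sum_le_of_forall_le_of_nonneg (by positivity) fun i hi => ?_
    rw [Finset.mem_range] at hi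
    rw [zsmul_eq_mul, norm_mul, norm_pow]
    have h3 := norm_intCast_le (p := p) (f.coeff i)
    calc ‖((f.coeff i : ℤ) : ℂ_[p])‖ * ‖x‖ ^ i ≤ 1 * ‖x‖ ^ i := by gcongr
      _ = ‖x‖ ^ i := one_mul _
      _ ≤ ‖x‖ ^ m := pow_le_pow_right₀ hcon.le (by omega)
  rw [norm_pow, hm, Nat.succ_eq_add_one, pow_succ] at h2
  have h4 : 0 < ‖x‖ ^ m := by positivity
  nlinarith

theorem t_FRS : S_FRS := by
  intro p hp f hf hsep x hx
  have hx1 := norm_root_le' p f hf x hx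
  obtain ⟨N, hN, hdvd⟩ := dvd_frob p _ (hf.map (Int.castRingHom (ZMod p))) hsep
  refine ⟨hx1, N, hN, ?_⟩
  have h1 : ((X ^ (p ^ N) - X : ℤ[X]) %ₘ f).map (Int.castRingHom (ZMod p)) = 0 := by
    rw [Polynomial.map_modByMonic _ hf]
    rw [Polynomial.modByMonic_eq_zero_iff_dvd (hf.map _)]
    simpa using hdvd
  have h2 := norm_aeval_le p _ h1 x hx1
  have h3 := congrArg (aeval x) (Polynomial.modByMonic_add_div (X ^ (p ^ N) - X : ℤ[X]) f)
  rw [map_add, map_mul, hx, zero_mul, add_zero] at h3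
  rw [h3] at h2
  simpa using h2

theorem norm_int_eq_one (p : ℕ) [hp : Fact p.Prime] (y : ℤ) (h : ¬ (p : ℤ) ∣ y) :
    ‖(y : ℂ_[p])‖ = 1 := by
  have h1 : IsCoprime (p : ℤ) y :=
    (Int.prime_iff_natAbs_prime.2 (by simpa using hp.out)).coprime_iff_not_dvd.2 h
  obtain ⟨a, b, hab⟩ := h1
  refine le_antisymm (norm_intCast_le y) ?_
  by_contra hcon
  rw [not_le] at hcon
  have h2 : (a : ℂ_[p]) * p + b * y = 1 := by exact_mod_cast hab
  have h3 : ‖(a : ℂ_[p]) * p + b * y‖ < 1 := by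
    refine (IsUltrametricDist.norm_add_le_max _ _).trans_lt (max_lt ?_ ?_)
    · rw [norm_mul]
      calc ‖(a : ℂ_[p])‖ * ‖(p : ℂ_[p])‖ ≤ 1 * ‖(p : ℂ_[p])‖ := by
            gcongr; exact norm_intCast_le a
        _ < 1 := by rw [one_mul]; exact norm_p_lt p
    · rw [norm_mul]
      calc ‖(b : ℂ_[p])‖ * ‖(y : ℂ_[p])‖ ≤ 1 * ‖(y : ℂ_[p])‖ := by
            gcongr; exact norm_intCast_le b
        _ < 1 := by rw [one_mul]; exact hcon
  rw [h2, norm_one] at h3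
  exact lt_irrefl _ h3

/-- an integral polynomial which is separable over `ℚ` is separable modulo almost all primes -/
theorem sep_almost (f : ℤ[X]) (hf : (f.map (algebraMap ℤ ℚ)).Separable) :
    ∃ D : ℤ, D ≠ 0 ∧ ∀ (p : ℕ) [Fact p.Prime], ¬ (p : ℤ) ∣ D →
      (f.map (Int.castRingHom (ZMod p))).Separable := by
  obtain ⟨u, v, huv⟩ := hf
  obtain ⟨b1, hb1, h1⟩ := IsLocalization.integerNormalization_spec (nonZeroDivisors ℤ) u
  obtain ⟨b2, hb2, h2⟩ := IsLocalization.integerNormalization_spec (nonZeroDivisors ℤ) v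
  set U := IsLocalization.integerNormalization (nonZeroDivisors ℤ) u
  set V := IsLocalization.integerNormalization (nonZeroDivisors ℤ) v
  have hb1' : b1 ≠ 0 := nonZeroDivisors.ne_zero hb1
  have hb2' : b2 ≠ 0 := nonZeroDivisors.ne_zero hb2
  have key : C b2 * U * f + C b1 * V * derivative f = C (b1 * b2) := by
    apply Polynomial.map_injective (algebraMap ℤ ℚ) (algebraMap ℤ ℚ).injective_int
    simp only [Polynomial.map_add, Polynomial.map_mul, Polynomial.map_C, h1, h2,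
      ← Polynomial.derivative_map]
    have e1 : (b1 • u : ℚ[X]) = C ((algebraMap ℤ ℚ) b1) * u := by
      rw [zsmul_eq_mul]; simp
    have e2 : (b2 • v : ℚ[X]) = C ((algebraMap ℤ ℚ) b2) * v := by
      rw [zsmul_eq_mul]; simp
    rw [e1, e2]
    rw [map_mul, map_mul]
    linear_combination (C ((algebraMap ℤ ℚ) b1) * C ((algebraMap ℤ ℚ) b2)) * huv
  refine ⟨b1 * b2, mul_ne_zero hb1' hb2', ?_⟩
  intro p hp hpD
  have k2 := congrArg (Polynomial.map (Int.castRingHom (ZMod p))) key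
  simp only [Polynomial.map_add, Polynomial.map_mul, Polynomial.map_C,
      ← Polynomial.derivative_map] at k2
  have hD0 : (Int.castRingHom (ZMod p)) (b1 * b2) ≠ 0 := by
    rw [eq_intCast]
    intro h
    rw [ZMod.intCast_zmod_eq_zero_iff_dvd] at h
    exact hpD h
  set d := (Int.castRingHom (ZMod p)) (b1 * b2) with hd
  refine ⟨C d⁻¹ * (C (Int.castRingHom (ZMod p) b2) * U.map (Int.castRingHom (ZMod p))),
    C d⁻¹ * (C (Int.castRingHom (ZMod p) b1) * V.map (Int.castRingHom (ZMod p))), ?_⟩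
  have hdd : C d⁻¹ * C d = (1 : (ZMod p)[X]) := by
    rw [← C_mul, inv_mul_cancel₀ hD0, C_1]
  linear_combination C d⁻¹ * k2 + hdd

theorem t_FRK : S_FRS → S_FRR → S_FRK := by
  intro hS hR K _ _ β
  have halg : IsAlgebraic ℤ β :=
    (IsFractionRing.isAlgebraic_iff ℤ ℚ K).2 (Algebra.IsAlgebraic.isAlgebraic β)
  obtain ⟨y, hy0, hy⟩ := halg.exists_integral_multiple
  set θ : K := y • β with hθ
  have hf := minpoly.isIntegrallyClosed_eq_field_fractions' ℚ hy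
  have hsep : ((minpoly ℤ θ).map (algebraMap ℤ ℚ)).Separable := by
    rw [← hf]
    exact (minpoly.irreducible (Algebra.IsIntegral.isIntegral θ)).separable
  obtain ⟨D, hD0, hD⟩ := sep_almost _ hsep
  refine ⟨max y.natAbs D.natAbs, ?_⟩
  intro p hp hpP τ
  have hpy : ¬ (p : ℤ) ∣ y := by
    intro h
    have := Int.natAbs_dvd_natAbs.2 h
    have := Nat.le_of_dvd (Int.natAbs_pos.2 hy0) this
    simp only [Int.natAbs_natCast] at this
    have := le_max_left y.natAbs D.natAbs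
    omega
  have hpD : ¬ (p : ℤ) ∣ D := by
    intro h
    have := Int.natAbs_dvd_natAbs.2 h
    have := Nat.le_of_dvd (Int.natAbs_pos.2 hD0) this
    simp only [Int.natAbs_natCast] at this
    have := le_max_right y.natAbs D.natAbs
    omega
  have hroot : aeval (τ θ) (minpoly ℤ θ) = 0 := by
    have h1 := congrArg τ (minpoly.aeval ℤ θ)
    rw [map_zero, Polynomial.aeval_def, Polynomial.hom_eval₂] at h1
    rw [Polynomial.aeval_def]
    rwa [RingHom.ext_int (algebraMap ℤ ℂ_[p]) (τ.comp (algebraMap ℤ K))]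
  have h1 : Fr p (τ θ) := hS p _ (minpoly.monic hy) (hD p hpD) _ hroot
  have hyn := norm_int_eq_one p y hpy
  have h2 : Fr p ((y : ℂ_[p])⁻¹) := fr_inv p (fr_int p y) hyn
  have h3 := (hR p).2.1 _ _ h2 h1
  have hyne : (y : ℂ_[p]) ≠ 0 := by
    rw [← norm_pos_iff, hyn]; exact one_pos
  have e : (y : ℂ_[p])⁻¹ * τ θ = τ β := by
    rw [hθ, zsmul_eq_mul, map_mul, map_intCast, ← mul_assoc, inv_mul_cancel₀ hyne, one_mul]
  rwa [e] at h3

end Pool.Agent.W932.LF
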